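import Pool.Agent.Helper87.CG.F1d
import Pool.Agent.Helper88.CG.VP
import Pool.Agent.Helper88.GM.KX

/-! # CG-F1: the window -/

set_option autoImplicit false

open Finset Filter Topology

open scoped Classical

namespace Pool.Agent.Helper87.CG

open Pool.Agent.Helper88.PP (pr Rg om Sf SS uu vv ee LA VV QQ cost)
open Pool.Agent.Helper88.RR (gg ab TB WB nz DB VM)
open Pool.Agent.Helper88.GM (NI XI gB Sr In)
open Pool.Agent.Helper88.CG

/-- the choice of `E` and `z` -/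
theorem choose_E (E1 : ℕ) : ∃ L0 : ℝ, ∀ x : ℕ, L0 ≤ Real.log x → ∃ E z : ℕ, E1 ≤ E ∧
    (0 : ℝ) < E ∧ Real.log (Real.log x) ≤ 3 * Real.log E ∧ Real.log x ^ 2 ≤ z ∧ 2 ≤ z ∧
    ∀ y : ℕ, Real.log x ≤ y → (y : ℝ) ≤ Real.log x ^ 2 → Sr E z x y := by
  obtain ⟨E2, hE2⟩ := Pool.Agent.Helper88.RR.scale
  obtain ⟨E3, hE3⟩ := Pool.Agent.Helper88.GM.cube
  refine ⟨4 / 3 * ((max E1 (max E2 (max E3 1)) : ℕ) : ℝ) ^ 2, fun x hlx => ?_⟩
  set l := Real.log x with hl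
  have hl0 : 0 ≤ 3 / 4 * l := by
    have : (0 : ℝ) ≤ 4 / 3 * ((max E1 (max E2 (max E3 1)) : ℕ) : ℝ) ^ 2 := by positivity
    linarith
  set E := ⌊Real.sqrt (3 / 4 * l)⌋₊ with hE
  have hEE : max E1 (max E2 (max E3 1)) ≤ E := by
    rw [hE]
    apply Nat.le_floor
    apply Real.le_sqrt_of_sq_le
    linarith
  have hEa : (E : ℝ) ^ 2 ≤ 3 / 4 * l := by
    have h1 : (E : ℝ) ≤ Real.sqrt (3 / 4 * l) := Nat.floor_le (Real.sqrt_nonneg _)
    calc (E : ℝ) ^ 2 ≤ Real.sqrt (3 / 4 * l) ^ 2 := pow_le_pow_left₀ (Nat.cast_nonneg _) h1 2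
      _ = 3 / 4 * l := Real.sq_sqrt hl0
  have hEb : 3 / 4 * l < ((E : ℝ) + 1) ^ 2 := by
    have h1 : Real.sqrt (3 / 4 * l) < (E : ℝ) + 1 := Nat.lt_floor_add_one _
    calc 3 / 4 * l = Real.sqrt (3 / 4 * l) ^ 2 := (Real.sq_sqrt hl0).symm
      _ < ((E : ℝ) + 1) ^ 2 := pow_lt_pow_left₀ h1 (Real.sqrt_nonneg _) (by norm_num)
  have q1 : E1 ≤ E := (le_max_left _ _).trans hEE
  have q2 : E2 ≤ E := (le_max_left _ _).trans ((le_max_right _ _).trans hEE)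
  have q3 : E3 ≤ E := (le_max_left _ _).trans ((le_max_right _ _).trans
    ((le_max_right _ _).trans hEE))
  have q4 : 1 ≤ E := (le_max_right _ _).trans ((le_max_right _ _).trans
    ((le_max_right _ _).trans hEE))
  obtain ⟨z, z1, z2, z3, z4, z5, z6, z7, z8⟩ := hE2 E x q2 hEa hEb
  have hcu : Real.log (Real.log x) ^ 3 ≤ E := by
    obtain ⟨a1, a2⟩ := hE3 E q3
    have h1 : 0 ≤ Real.log (Real.log x) := Real.log_nonneg (by linarith only [z8])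
    exact (pow_le_pow_left₀ h1 z7 3).trans a1
  refine ⟨E, z, q1, by exact_mod_cast q4, z7, z6, ?_, fun y hy1 hy2 => ⟨z1, z3, z4, hy1, hy2, hcu⟩⟩
  have h4 : (4 : ℝ) ≤ z := by
    have : (2 : ℝ) ^ 2 ≤ Real.log x ^ 2 := pow_le_pow_left₀ (by norm_num) z8 2
    linarith only [z6, this]
  have : (2 : ℝ) ≤ z := by linarith only [h4]
  exact_mod_cast this

theorem pow36 {w E : ℕ} (h : (2 * (w + 2)) ^ 6 ≤ E) : (w + 1) ^ 3 ≤ E := by
  have h1 : w + 1 ≤ 2 * (w + 2) := by omega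
  calc (w + 1) ^ 3 ≤ (2 * (w + 2)) ^ 3 := Nat.pow_le_pow_left h1 3
    _ ≤ (2 * (w + 2)) ^ 6 := Nat.pow_le_pow_right (by omega) (by norm_num)
    _ ≤ E := h

theorem nl1 {K R1 : ℝ} (h1 : 1 ≤ K) (h2 : 1 ≤ R1) : 1 ≤ K * R1 := by nlinarith

theorem nl2 {K k : ℝ} (h1 : 1 ≤ K) (h2 : K ≤ 3 * k) : K ^ 2 ≤ 9 * k ^ 2 := by
  calc K ^ 2 ≤ (3 * k) ^ 2 := pow_le_pow_left₀ (by linarith) h2 2
    _ = 9 * k ^ 2 := by ring

theorem nl3 {K R1 cA : ℝ} (h1 : 1 ≤ K) (h2 : 8 ≤ cA * R1) : 8 * K ≤ cA * (K * R1) := by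
  calc 8 * K ≤ (cA * R1) * K := mul_le_mul_of_nonneg_right h2 (by linarith)
    _ = cA * (K * R1) := by ring

theorem nl4 {M U l : ℝ} (h1 : 0 ≤ M) (h2 : l ≤ U) : M * (U + l) ≤ 2 * M * U := by
  nlinarith

theorem nl5 {a cK E lE : ℝ} (h1 : a ≤ cK * (E * lE)) (h2 : 2 * cK * lE ≤ E) (hE : 0 < E) :
    a ≤ E ^ 2 / 2 := by
  nlinarith

theorem nl6 {a E : ℝ} (h1 : a ≤ E ^ 2 / 2) : a ≤ E ^ 2 := by
  have := sq_nonneg E
  linarith

theorem nl7 {a : ℕ} (h : 1 ≤ a) : a ≤ a ^ 2 := by nlinarith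

/-- the number of killed points -/
theorem small_p {Λ C4 c C'' cK k L LL E lE y M U p om' fq : ℝ} (hΛ : 0 < Λ) (hC4 : 0 < C4)
    (hc : 0 < c) (hC'' : 0 < C'') (hk : 0 < k) (hL : 0 < L) (hLL : 0 < LL) (hE : 0 < E)
    (hcdef : 12 * Λ * C'' * C4 * c = cK) (hlE : LL ≤ 3 * lE) (hy0 : 0 ≤ y)
    (hy : y ≤ 2 * M * U) (hM : M ≤ C'' * k ^ 2) (hU : U ≤ 2 * (c / k ^ 2) * (L * LL))
    (_hM0 : 0 ≤ M) (hU0 : 0 ≤ U)
    (ho : 0 ≤ om') (hA4 : om' * fq ≤ C4 * (E / L)) (hp : p ≤ Λ * (y * fq)) :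
    p * om' ≤ cK * (E * lE) := by
  have h1 : p * om' ≤ Λ * (y * fq) * om' := mul_le_mul_of_nonneg_right hp ho
  have h2 : Λ * (y * fq) * om' = Λ * y * (om' * fq) := by ring
  have h3 : Λ * y * (om' * fq) ≤ Λ * y * (C4 * (E / L)) :=
    mul_le_mul_of_nonneg_left hA4 (by positivity)
  have h4 : y ≤ 2 * (C'' * k ^ 2) * (2 * (c / k ^ 2) * (L * LL)) := by
    refine hy.trans ?_
    have : M * U ≤ (C'' * k ^ 2) * (2 * (c / k ^ 2) * (L * LL)) :=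
      mul_le_mul hM hU hU0 (by positivity)
    linarith only [this]
  have h5 : 2 * (C'' * k ^ 2) * (2 * (c / k ^ 2) * (L * LL)) = 4 * C'' * c * (L * LL) := by
    field_simp
    ring
  rw [h5] at h4
  have h6 : Λ * y * (C4 * (E / L)) ≤ Λ * (4 * C'' * c * (L * LL)) * (C4 * (E / L)) := by
    gcongr
  have h7 : Λ * (4 * C'' * c * (L * LL)) * (C4 * (E / L)) = 4 * Λ * C'' * C4 * c * E * LL := by
    field_simp
  have h8 : 4 * Λ * C'' * C4 * c * E * LL ≤ 4 * Λ * C'' * C4 * c * E * (3 * lE) :=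
    mul_le_mul_of_nonneg_left hlE (by positivity)
  have h9 : 4 * Λ * C'' * C4 * c * E * (3 * lE) = cK * (E * lE) := by
    rw [← hcdef]
    ring
  linarith only [h1, h3, h6, h7, h8, h9]

set_option maxHeartbeats 4000000 in
theorem f1 (h1 : StmtLB) (h2 : StmtPB) (h3 : StmtBT) (h4 : StmtKQ) (h5 : StmtA1) (h6 : StmtA3)
    (h7 : StmtA4) (h8 : Pool.Agent.Helper88.GM.StmtS1) : StmtF1 := by
  obtain ⟨CP, hCP, E2, hPB⟩ := h2
  obtain ⟨CB, hCB, E3, hBT⟩ := h3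
  obtain ⟨cK, hcK, hKQ⟩ := h4
  obtain ⟨cA, hcA, x5, hA1⟩ := h5
  obtain ⟨C3, hC3, x6, hA3⟩ := h6
  obtain ⟨C4, hC4, E7, hA4⟩ := h7
  obtain ⟨cS, hcS, E8, hS1⟩ := h8
  obtain ⟨_, _, E9, hVP⟩ := Pool.Agent.Helper88.CG.vp
  obtain ⟨C5, hC5⟩ : ∃ C5 : ℝ, C5 = 8 * C3 * C4 ^ 2 := ⟨_, rfl⟩
  have hC50 : 0 < C5 := by rw [hC5]; positivity
  obtain ⟨δ1, hδ1⟩ : ∃ δ1 : ℝ, δ1 = min 1 (cA / (4 * CP * C5)) := ⟨_, rfl⟩
  have hδ10 : 0 < δ1 := by rw [hδ1]; exact lt_min one_pos (by positivity)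
  have hδ11 : δ1 ≤ 1 := hδ1 ▸ min_le_left _ _
  have hδ12 : 4 * CP * C5 * δ1 ≤ cA := by
    have : δ1 ≤ cA / (4 * CP * C5) := hδ1 ▸ min_le_right _ _
    rw [le_div_iff₀ (by positivity)] at this
    linarith only [this]
  obtain ⟨R1, hR1⟩ : ∃ R1 : ℝ, R1 = 8 / cA + 1 := ⟨_, rfl⟩
  have hR11 : 1 ≤ R1 := by
    rw [hR1]
    have : 0 < 8 / cA := by positivity
    linarith only [this]
  have hR1A : 8 ≤ cA * R1 := by
    rw [hR1, mul_add, mul_div_cancel₀ _ hcA.ne']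
    linarith only [hcA]
  obtain ⟨Λ, hΛ⟩ : ∃ Λ : ℝ, Λ = 32 * CB ^ 2 * C5 / cA ^ 2 := ⟨_, rfl⟩
  have hΛ0 : 0 < Λ := by rw [hΛ]; positivity
  obtain ⟨C'', hC''⟩ : ∃ C'' : ℝ, C'' = 18 * R1 / δ1 := ⟨_, rfl⟩
  have hC''0 : 0 < C'' := by rw [hC'']; positivity
  obtain ⟨c, hc⟩ : ∃ c : ℝ, c = cK / (12 * Λ * C'' * C4) := ⟨_, rfl⟩
  have hc0 : 0 < c := by rw [hc]; positivity
  have hcdef : 12 * Λ * C'' * C4 * c = cK := by
    rw [hc]
    field_simp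
  refine ⟨c, hc0, fun k hk => ?_⟩
  have hk0 : (1 : ℝ) ≤ k := by exact_mod_cast hk
  obtain ⟨K, hK⟩ : ∃ K : ℝ, K = (k : ℝ) + 2 := ⟨_, rfl⟩
  have hK1 : 1 ≤ K := by rw [hK]; linarith only [hk0]
  have hK3 : K ≤ 3 * k := by rw [hK]; linarith only [hk0]
  obtain ⟨δ, hδ⟩ : ∃ δ : ℝ, δ = δ1 / K := ⟨_, rfl⟩
  have hδ0 : 0 < δ := by rw [hδ]; positivity
  obtain ⟨R, hR⟩ : ∃ R : ℝ, R = K * R1 := ⟨_, rfl⟩
  have hR0 : 1 ≤ R := by rw [hR]; exact nl1 hK1 hR11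
  have hδle : δ ≤ 1 := by
    rw [hδ]
    exact (div_le_one (by linarith only [hk0, hK])).2 (hδ11.trans hK1)
  obtain ⟨M, hM⟩ : ∃ M : ℕ, M = ⌈R / δ⌉₊ := ⟨_, rfl⟩
  have hM1 : R / δ ≤ M := by rw [hM]; exact Nat.le_ceil _
  have hRδ : 1 ≤ R / δ := by
    rw [le_div_iff₀ hδ0]
    linarith only [hR0, hδle]
  have hM2 : (M : ℝ) ≤ 2 * (R / δ) := by
    have := Nat.ceil_lt_add_one (by linarith only [hRδ] : 0 ≤ R / δ)
    rw [← hM] at this
    linarith only [hRδ, this]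
  have hM1' : 1 ≤ M := by
    have : (1 : ℝ) ≤ M := hRδ.trans hM1
    exact_mod_cast this
  have hMk : (M : ℝ) ≤ C'' * (k : ℝ) ^ 2 := by
    refine hM2.trans ?_
    rw [hR, hδ, hC'']
    have e1 : 2 * (K * R1 / (δ1 / K)) = 2 * R1 / δ1 * K ^ 2 := by
      field_simp
    rw [e1]
    have e2 : K ^ 2 ≤ 9 * (k : ℝ) ^ 2 := nl2 hK1 hK3
    have e3 : 2 * R1 / δ1 * K ^ 2 ≤ 2 * R1 / δ1 * (9 * (k : ℝ) ^ 2) :=
      mul_le_mul_of_nonneg_left e2 (by positivity)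
    have e4 : 2 * R1 / δ1 * (9 * (k : ℝ) ^ 2) = 18 * R1 / δ1 * (k : ℝ) ^ 2 := by ring
    linarith only [e3, e4]
  obtain ⟨G, hG⟩ : ∃ G : ℝ, G = K + M + (1 + 2 * C5 * R ^ 2) / 2 := ⟨_, rfl⟩
  have hG0 : 0 < G := by
    rw [hG]
    have : (0 : ℝ) ≤ M := Nat.cast_nonneg M
    positivity
  obtain ⟨η, hη⟩ : ∃ η : ℝ, η = min (1 / 6) (K / G) := ⟨_, rfl⟩
  have hη0 : 0 < η := by rw [hη]; exact lt_min (by norm_num) (by positivity)
  have hη1 : η ≤ 1 / 6 := hη ▸ min_le_left _ _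
  have hη2 : η * (K + M + (1 + 2 * C5 * R ^ 2) / 2) ≤ K := by
    have : η ≤ K / G := hη ▸ min_le_right _ _
    rw [le_div_iff₀ hG0, hG] at this
    exact this
  obtain ⟨E4, hKQ'⟩ := hKQ η hη0
  obtain ⟨E1, hLB⟩ := h1 η hη0
  obtain ⟨E5, hE5⟩ := sizesE (cS := cS) (η := η) (cK := cK) hcS hη0 hcK
  obtain ⟨L0, hL0⟩ := choose_E (max E1 (max E2 (max E3 (max E4 (max E5 (max E7 (max E8 E9)))))))
  have hlog : Tendsto (fun x : ℕ => Real.log (x : ℝ)) atTop atTop :=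
    Real.tendsto_log_atTop.comp tendsto_natCast_atTop_atTop
  obtain ⟨x0, hx0⟩ := eventually_atTop.1 ((sizes (c' := c / (k : ℝ) ^ 2) (δ := δ) (by positivity)
    hδ0 hM1').and ((hlog.eventually_ge_atTop L0).and ((eventually_ge_atTop x5).and
      (eventually_ge_atTop x6))))
  refine ⟨x0, fun x hx => ?_⟩
  obtain ⟨⟨U, l, s1, s2, s3, s4, s5, s6, s7, s8, s9, s10, s11, s12⟩, t1, t2, t3⟩ := hx0 x hx
  obtain ⟨E, z, u1, u2, u3, u4, u5, u6⟩ := hL0 x t1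
  simp only [max_le_iff] at u1
  obtain ⟨v1, v2, v3, v4, v5, v7, v8, v9⟩ := u1
  obtain ⟨w1, w2, w3⟩ := hE5 E v5
  obtain ⟨y, hy⟩ : ∃ y : ℕ, y = M * (U + l) := ⟨_, rfl⟩
  rw [← hy] at s6 s7
  have hSr : Sr E z x y := u6 y s6 s7
  have hQ1 : 1 ≤ QQ x := primorial_pos _
  have hQ0 : (0 : ℝ) < QQ x := by exact_mod_cast hQ1
  obtain ⟨X, hX⟩ : ∃ X : ℝ, X = XI (x / 32) x (QQ x) := ⟨_, rfl⟩
  have hXv : X * QQ x = ((x - x / 32 : ℕ) : ℝ) := by
    rw [hX]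
    unfold XI
    exact div_mul_cancel₀ _ hQ0.ne'
  have hX0 : 0 < X := by
    have : (0 : ℝ) < ((x - x / 32 : ℕ) : ℝ) := by
      have : 0 < x - x / 32 := by omega
      exact_mod_cast this
    rw [← hXv] at this
    exact (pos_iff_pos_of_mul_pos this).2 hQ0
  obtain ⟨o, ho⟩ : ∃ o : ℝ, o = om y z / E := ⟨_, rfl⟩
  have hom0 : 0 ≤ om y z := Pool.Agent.Helper88.PP.om_nonneg y z
  have ho0 : 0 ≤ o := by rw [ho]; positivity
  have hcop : ∀ b, ∀ n ∈ NI (x / 32) x (QQ x) b, ∀ j, (n + j).Prime →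
      Nat.Coprime (b + j) (QQ x) := fun b n hn j hp => coprime_of_prime s9 hn hp
  obtain ⟨fq, hfq⟩ : ∃ fq : ℝ, fq = (Nat.totient (QQ x) : ℝ) / QQ x := ⟨_, rfl⟩
  have hfq0 : 0 < fq := by
    rw [hfq]
    have : (0 : ℝ) < Nat.totient (QQ x) := by exact_mod_cast Nat.totient_pos.2 hQ1
    positivity
  have hA4' := hA4 E z x y v7 hSr
  rw [← hfq] at hA4'
  have hofq : o * fq ≤ C4 / Real.log x := by
    rw [ho, div_mul_eq_mul_div, div_le_iff₀ u2]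
    calc om y z * fq ≤ C4 * (E / Real.log x) := hA4'
      _ = C4 / Real.log x * E := by ring
  have hy0 : (0 : ℝ) < y := lt_of_lt_of_le s12 s6
  have hMδ : (M : ℝ) * δ ≤ 2 * R := by
    calc (M : ℝ) * δ ≤ 2 * (R / δ) * δ := mul_le_mul_of_nonneg_right hM2 hδ0.le
      _ = 2 * R := by field_simp
  -- the averages
  have hr : ∀ b, (∑ a ∈ range M, ∑ j ∈ blk U l a, ∑ n ∈ NI (x / 32) x (QQ x) b, pw x (n + j)) / X
      ≤ CB * (o * ∑ a ∈ range M, ((cb (QQ x) U l b a).card : ℝ)) ∨ QQ x ≤ b := by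
    intro b
    by_cases hb : b < QQ x
    · left
      refine r_le (by omega) hX0 (hcop b) ?_
      intro j hj
      rw [hX, ho]
      exact hBT E z x y v3 hSr b hb j (by rw [hy]; exact hj)
    · right
      omega
  have hts : ∑ b ∈ range (QQ x), o ^ 2 * ∑ a ∈ range M, ((cb (QQ x) U l b a).card : ℝ) ^ 2 ≤
      QQ x * (C5 * R * δ) := by
    have e1 : ∀ a ∈ range M, ∑ b ∈ range (QQ x), ((cb (QQ x) U l b a).card : ℝ) ^ 2 ≤
        C3 * QQ x * (l * fq) ^ 2 := by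
      intro a _
      rw [hfq]
      exact hA3 x t3 (a * (U + l)) l s8
    rw [← mul_sum, sum_comm]
    have e2 := sum_le_sum e1
    rw [sum_const, card_range, nsmul_eq_mul] at e2
    have e3 : o ^ 2 * (M * (C3 * QQ x * (l * fq) ^ 2)) = C3 * QQ x * M * (l * (o * fq)) ^ 2 := by
      ring
    have e4 : (l : ℝ) * (o * fq) ≤ 2 * δ * C4 := by
      calc (l : ℝ) * (o * fq) ≤ (2 * δ * Real.log x) * (C4 / Real.log x) := by
            apply mul_le_mul s4 hofq (by positivity) (by positivity)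
        _ = 2 * δ * C4 := by field_simp
    have e5 : ((l : ℝ) * (o * fq)) ^ 2 ≤ (2 * δ * C4) ^ 2 :=
      pow_le_pow_left₀ (by positivity) e4 2
    calc o ^ 2 * ∑ a ∈ range M, ∑ b ∈ range (QQ x), ((cb (QQ x) U l b a).card : ℝ) ^ 2
        ≤ o ^ 2 * (M * (C3 * QQ x * (l * fq) ^ 2)) := mul_le_mul_of_nonneg_left e2 (by positivity)
      _ = C3 * QQ x * M * (l * (o * fq)) ^ 2 := e3
      _ ≤ C3 * QQ x * M * (2 * δ * C4) ^ 2 := mul_le_mul_of_nonneg_left e5 (by positivity)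
      _ = QQ x * (4 * C3 * C4 ^ 2 * δ) * (M * δ) := by ring
      _ ≤ QQ x * (4 * C3 * C4 ^ 2 * δ) * (2 * R) := mul_le_mul_of_nonneg_left hMδ (by positivity)
      _ = QQ x * (C5 * R * δ) := by rw [hC5]; ring
  have hss : ∑ b ∈ range (QQ x), (o * ∑ a ∈ range M, ((cb (QQ x) U l b a).card : ℝ)) ^ 2 ≤
      QQ x * (2 * C5 * R ^ 2) := by
    have e1 : ∀ b ∈ range (QQ x), (o * ∑ a ∈ range M, ((cb (QQ x) U l b a).card : ℝ)) ^ 2 ≤
        M * (o ^ 2 * ∑ a ∈ range M, ((cb (QQ x) U l b a).card : ℝ) ^ 2) := by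
      intro b _
      have e2 := sq_sum_le_card_mul_sum_sq (s := range M)
        (f := fun a => ((cb (QQ x) U l b a).card : ℝ))
      rw [card_range] at e2
      rw [mul_pow]
      have e3 := mul_le_mul_of_nonneg_left e2 (by positivity : 0 ≤ o ^ 2)
      linarith only [e3]
    have e4 := sum_le_sum e1
    rw [← mul_sum] at e4
    calc _ ≤ _ := e4
      _ ≤ M * (QQ x * (C5 * R * δ)) := mul_le_mul_of_nonneg_left hts (Nat.cast_nonneg _)
      _ = QQ x * (C5 * R) * (M * δ) := by ring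
      _ ≤ QQ x * (C5 * R) * (2 * R) := mul_le_mul_of_nonneg_left hMδ (by positivity)
      _ = _ := by ring
  have hrs : QQ x * (cA * R) ≤ ∑ b ∈ range (QQ x),
      (∑ a ∈ range M, ∑ j ∈ blk U l a, ∑ n ∈ NI (x / 32) x (QQ x) b, pw x (n + j)) / X := by
    rw [← sum_div, le_div_iff₀ hX0]
    have e1 := avg_r (x := x) (M := M) (U := U) (l := l) (c := cA * (x / Real.log x)) hQ1
      (fun j hj => hA1 x t2 j (le_trans (by rw [hy]; exact_mod_cast hj) s7))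
    refine le_trans ?_ e1
    have e2 : X * QQ x ≤ x := by
      rw [hXv]
      exact_mod_cast Nat.sub_le _ _
    have e3 : R * Real.log x ≤ M * l := by
      calc R * Real.log x = (R / δ) * (δ * Real.log x) := by field_simp
        _ ≤ M * l := mul_le_mul hM1 s3 (by positivity) (Nat.cast_nonneg _)
    calc QQ x * (cA * R) * X = (X * QQ x) * (cA * R) := by ring
      _ ≤ x * (cA * R) := mul_le_mul_of_nonneg_right e2 (by positivity)
      _ = (R * Real.log x) * (cA * (x / Real.log x)) := by field_simp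
      _ ≤ M * l * (cA * (x / Real.log x)) := mul_le_mul_of_nonneg_right e3 (by positivity)
  have hps : ∑ b ∈ range (QQ x), ((Pb (QQ x) M U l b).card : ℝ) ≤ QQ x * (y * fq) := by
    refine (avg_p _ _ _ _ hQ1).trans (le_of_eq ?_)
    rw [← hy, hfq]
    field_simp
  obtain ⟨b, hb, hpb, hpos⟩ := avg (Q := QQ x)
    (r := fun b => (∑ a ∈ range M, ∑ j ∈ blk U l a, ∑ n ∈ NI (x / 32) x (QQ x) b,
      pw x (n + j)) / X)
    (s := fun b => o * ∑ a ∈ range M, ((cb (QQ x) U l b a).card : ℝ))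
    (t := fun b => o ^ 2 * ∑ a ∈ range M, ((cb (QQ x) U l b a).card : ℝ) ^ 2)
    (p := fun b => ((Pb (QQ x) M U l b).card : ℝ)) (M := (M : ℝ))
    hQ1 hcA hCB hCP hC50 hK1 (by linarith only [hR0, hη0, hη1]) (mul_pos hy0 hfq0) hη0.le hη1
    (fun b _ => by positivity) (fun b _ => by positivity) (fun b _ => by positivity)
    hrs (fun b hb => (hr b).resolve_right (by omega)) hss hts hps
    (by
      rw [hδ]
      have : 4 * K * CP * C5 * (δ1 / K) = 4 * CP * C5 * δ1 := by field_simp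
      linarith only [hδ12, this])
    (by
      rw [hR]
      exact nl3 hK1 hR1A)
    (Nat.cast_nonneg _) hη2
  rw [← hΛ] at hpb
  -- the number of killed points
  obtain ⟨P, hP⟩ : ∃ P : Finset ℕ, P = Pb (QQ x) M U l b := ⟨_, rfl⟩
  have hPy : P ⊆ Icc 1 y := by rw [hP, hy]; exact Pb_sub _ _ _ _ _
  have hPom : (P.card : ℝ) * om y z ≤ cK * (E * Real.log E) := by
    rw [hP]
    refine small_p (y := y) (M := M) (U := U) (k := k) hΛ0 hC4 hc0 hC''0 (by linarith only [hk0, hη0, hη1]) s12 s11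
      u2 hcdef u3 hy0.le ?_ hMk s2 (Nat.cast_nonneg _) (Nat.cast_nonneg _) hom0 hA4' hpb
    rw [hy]
    push_cast
    exact nl4 (Nat.cast_nonneg _) (by exact_mod_cast s5)
  have hPom2 : (P.card : ℝ) * om y z ≤ (E : ℝ) ^ 2 / 2 := by
    exact nl5 hPom w2 u2
  have hIn : In x (x / 32) x (QQ x) b := ⟨dvd_rfl, hb, by omega⟩
  obtain ⟨g1, g2, -, g4, -, g6⟩ := hVP E v9
  obtain ⟨g7, -⟩ := g6 z u5
  have hqE : 1 ≤ qE E := Nat.one_le_two_pow
  have hyz : 0 + y ≤ z := by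
    have : (y : ℝ) ≤ z := s7.trans u4
    rw [zero_add]
    exact_mod_cast this
  obtain ⟨hD1, hS⟩ := hS1 E z x y v8 hSr (x / 32) x (QQ x) b hIn (mE E) (qE E) g1
    ((Nat.mul_le_mul_right _ (nl7 hqE)).trans g2) g7
    (pow36 g4)
    0 hyz P (by rw [zero_add, zero_add]; exact hPy) (nl6 hPom2)
  have hDt : (1 : ℝ) ≤ Dt E z y P := hD1
  have hSt : |∑ n ∈ NI (x / 32) x (QQ x) b, Wt E z y P n ^ 2 - X * Dt E z y P| ≤
      Real.exp (-(cS * E)) * X := by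
    rw [hX]
    exact hS
  have hS' : ∑ n ∈ NI (x / 32) x (QQ x) b, Wt E z y P n ^ 2 ≤ (1 + η) * (X * Dt E z y P) := by
    have e1 := (abs_le.1 hSt).2
    have e2 : Real.exp (-(cS * E)) * X ≤ η * X := mul_le_mul_of_nonneg_right w1 hX0.le
    have e3 : η * X ≤ η * (X * Dt E z y P) :=
      mul_le_mul_of_nonneg_left (le_mul_of_one_le_right hX0.le hDt) hη0.le
    linarith only [e1, e2, e3]
  obtain ⟨n, hn, hbr⟩ := key (N := NI (x / 32) x (QQ x) b) (W2 := fun n => Wt E z y P n ^ 2)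
    (pwf := pw x) (M := M) (U := U) (l := l) (Q := QQ x) (b := b) (P := P) (X := X)
    (D := Dt E z y P) (o := o) (η := η) (CP := CP) (K := K)
    (fun n _ => sq_nonneg _) (fun m => pw_le_one x m (by omega)) (fun m hm => pw_of_not x m hm)
    (hcop b) hX0 (by linarith only [hη0, hη1, hDt]) hCP.le (by linarith only [hk0, hK, hη0, hη1])
    (by
      intro a ha j hj
      rw [hX, ho]
      exact hLB E z x y v1 hSr b hb P hPy hPom2 j (by rw [hy]; exact blk_sub ha hj)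
        (by rw [hP]; exact blk_notMem ha hj))
    (by
      intro a ha j hj j' hj' hne
      rw [hX, ho]
      exact hPB E z x y v2 hSr b hb P hPy hPom2 j (by rw [hy]; exact blk_sub ha hj)
        j' (by rw [hy]; exact blk_sub ha hj') (by rw [hP]; exact blk_notMem ha hj)
        (by rw [hP]; exact blk_notMem ha hj') hne)
    (by
      rw [hX]
      exact hKQ' E z x y v4 hSr b hb P hPy hPom)
    hS' hpos
  rw [hP] at hbr
  have hnm : n ∈ NI (x / 32) x (QQ x) b := hn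
  unfold NI at hnm
  rw [mem_filter, mem_Ioc] at hnm
  obtain ⟨k1, k2⟩ := window hK (hcop b n hn) hbr
  exact ⟨n, M, U, l, s1, by omega, hnm.1.2, by rw [← hy]; exact s7, k1, k2⟩

end Pool.Agent.Helper87.CG
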