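import Pool.Agent.Helper78.CG.Goals
import Pool.Agent.Helper87.DT.PTN
import Pool.Agent.Helper3.DT.PTL
import Pool.Agent.Helper40.DT.BRU

/-!
# CG-CGG: the generator
-/

set_option autoImplicit false

namespace Pool.Agent.Helper87.CG

open Pool.Agent.Helper81.CC Pool.Agent.Helper51.ZP Pool.Agent.Helper78.DT Pool.Agent.Helper78.AO
  Pool.Agent.Helper78.JT Pool.Agent.Helper78.CG
open Pool.Agent.Helper40.DT (bt eqv eqv_apply filter_length)
open scoped Classical

theorem witnessed_mono {n w w' : ℕ} (h : w ≤ w') {B : Set (Fin n → Bool)} (hB : Witnessed w B) :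
    Witnessed w' B := by
  intro y hy
  obtain ⟨Q, h1, h2⟩ := hB y hy
  exact ⟨Q, h1.trans h, h2⟩

theorem certified_mono {n w w' r : ℕ} (h : w ≤ w') {A : Set (Fin n → Bool)}
    (hA : Certified w r A) : Certified w' r A := by
  obtain ⟨B, h1, h2⟩ := hA
  exact ⟨B, fun j => witnessed_mono h (h1 j), h2⟩

/-- All strings of length `N`. -/
def brute (N M : ℕ) : List (List Bool) :=
  (List.range (2 ^ min N M)).map fun i => (List.range N).map (bt i)

theorem coins_map {n N : ℕ} (h : n ≤ N) (f : ℕ → Bool) :
    Pool.Agent.Helper78.CG.coins n ((List.range N).map f) = fun v : Fin n => f v := by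
  funext v
  unfold Pool.Agent.Helper78.CG.coins
  have hv : (v : ℕ) < N := lt_of_lt_of_le v.2 h
  rw [List.getD_eq_getElem?_getD, List.getElem?_map, List.getElem?_range hv]
  rfl

theorem card_ext {n k : ℕ} (A : Set (Fin n → Bool)) :
    Nat.card {y : Fin (n + k) → Bool // (fun v : Fin n => y (Fin.castAdd k v)) ∈ A} =
      Nat.card A * 2 ^ k := by
  have e : {y : Fin (n + k) → Bool // (fun v : Fin n => y (Fin.castAdd k v)) ∈ A} ≃
      A × (Fin k → Bool) :=
    { toFun := fun y => (⟨fun v : Fin n => y.1 (Fin.castAdd k v), y.2⟩,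
        fun v => y.1 (Fin.natAdd n v))
      invFun := fun p => ⟨Fin.append p.1.1 p.2, by
        have : (fun v : Fin n => Fin.append p.1.1 p.2 (Fin.castAdd k v)) = p.1.1 := by
          funext v
          rw [Fin.append_left]
        rw [this]
        exact p.1.2⟩
      left_inv := fun y => by
        apply Subtype.ext
        funext v
        refine Fin.addCases (fun i => ?_) (fun i => ?_) v
        · simp [Fin.append_left]
        · simp [Fin.append_right]
      right_inv := fun p => by
        refine Prod.ext (Subtype.ext ?_) ?_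
        · funext v
          simp [Fin.append_left]
        · funext v
          simp [Fin.append_right] }
  rw [Nat.card_congr e, Nat.card_prod]
  congr 1
  rw [Nat.card_eq_fintype_card, Fintype.card_fun, Fintype.card_bool, Fintype.card_fin]

theorem frac_brute {n N M : ℕ} (h : n ≤ N) (hM : N ≤ M) (A : Set (Fin n → Bool)) :
    frac (brute N M) A = prob A := by
  unfold frac prob brute
  rw [min_eq_left hM, List.filter_map, List.length_map, List.length_map, List.length_range]
  have h1 : ((List.range (2 ^ N)).filter ((fun s => decide (Pool.Agent.Helper78.CG.coins n s ∈ A)) ∘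
      fun i => (List.range N).map (bt i))).length =
      ((List.range (2 ^ N)).filter fun i => decide ((fun v : Fin n => bt i v) ∈ A)).length := by
    congr 2
    funext i
    simp only [Function.comp]
    rw [coins_map h]
  rw [h1, filter_length]
  obtain ⟨k, rfl⟩ := Nat.exists_eq_add_of_le h
  have h2 : Nat.card {i : Fin (2 ^ (n + k)) //
      decide ((fun v : Fin n => bt i v) ∈ A) = true} =
      Nat.card {y : Fin (n + k) → Bool // (fun v : Fin n => y (Fin.castAdd k v)) ∈ A} := by
    refine Nat.card_congr (Equiv.subtypeEquiv (eqv (n + k)) fun i => ?_)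
    rw [decide_eq_true_iff]
    have : (fun v : Fin n => eqv (n + k) i (Fin.castAdd k v)) = fun v : Fin n => bt i v := by
      funext v
      rw [eqv_apply]
      rfl
    rw [this]
  rw [h2, card_ext]
  push_cast
  rw [pow_add, mul_div_mul_right _ _ (by positivity)]

theorem pt_brute (M : ℕ) : PolyTime fun N : ℕ => brute N M := by
  have hPtl : PtlStmt := Pool.Agent.Helper3.DT.ptl
  have hPtn : PtnStmt := Pool.Agent.Helper87.DT.ptn
  have hn : PolyTime (fun x : ℕ => min x M) := by fun_prop
  have hpow : PolyTime (fun x : ℕ => 2 ^ (min x M)) :=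
    (hPtl ℕ (fun _ => 2 ^ M) (fun x => min x M) (fun _ => 2) (PolyTime.const _) hn
      (PolyTime.const _)).2.2.2.2 fun a => Nat.pow_le_pow_right (by norm_num) (min_le_right _ _)
  have hbt : PolyTime (fun z : (ℕ × ℕ) × ℕ => bt z.1.2 z.2) := by
    have h1 : PolyTime (fun z : (ℕ × ℕ) × ℕ => dg 2 z.1.2 z.2) :=
      (hPtn ((ℕ × ℕ) × ℕ)).2 (fun _ => 2) (fun z => z.1.2) (fun z => z.2) (PolyTime.const _)
        (by fun_prop) (by fun_prop)
    unfold bt
    fun_prop
  have hin : PolyTime (fun z : ℕ × ℕ => (List.range z.1).map (bt z.2)) :=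
    PolyTime.list_map (f := fun z : ℕ × ℕ => bt z.2) (PolyTime.range (by fun_prop)) hbt
  exact PolyTime.list_map (f := fun N i => (List.range N).map (bt i)) (PolyTime.range hpow) hin

theorem cgg (hCga : CgaStmt) (hCgp : CgpStmt) : CggStmt := by
  intro c e
  obtain ⟨a, β, C, L0, hG⟩ := hCga c c e
  refine ⟨fun N => if L0 ≤ lg N then gen (c + c) a β e C N else brute N (2 ^ L0), ?_, ?_⟩
  · apply PolyTime.computable
    have hPtl : PtlStmt := Pool.Agent.Helper3.DT.ptl
    have hlg : PolyTime (fun x : ℕ => lg x) :=
      (hPtl ℕ (fun x => x) (fun x => x) (fun x => x) (by fun_prop) (by fun_prop) (by fun_prop)).1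
    exact PolyTime.itep (PolyTime.decide_le (PolyTime.const _) hlg) (hCgp _ _ _ _ _) (pt_brute _)
  · intro N
    have hlN : Nat.log 2 N + 2 = lg N := rfl
    rw [hlN]
    by_cases hN : L0 ≤ lg N
    · simp only [if_pos hN]
      constructor
      · intro s hs
        unfold gen at hs
        rw [List.mem_map] at hs
        obtain ⟨i, _, rfl⟩ := hs
        simp
      · intro n r A hn hr hA
        exact hG n N r A hn (certified_mono (by
          apply Nat.mul_le_mul_left
          unfold lg
          omega) hA) hr hN
    · simp only [if_neg hN]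
      constructor
      · intro s hs
        unfold brute at hs
        rw [List.mem_map] at hs
        obtain ⟨i, _, rfl⟩ := hs
        simp
      · intro n r A hn hr hA
        have hNM : N ≤ 2 ^ L0 := by
          have h1 : N < 2 ^ (Nat.log 2 N + 1) := Nat.lt_pow_succ_log_self (by norm_num) N
          have h2 : 2 ^ (Nat.log 2 N + 1) ≤ 2 ^ L0 := Nat.pow_le_pow_right (by norm_num) (by
            unfold lg at hN
            omega)
          omega
        rw [frac_brute hn hNM]
        have : (0 : ℝ) ≤ 1 / (lg N : ℕ) ^ c := by positivity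
        linarith

end Pool.Agent.Helper87.CG
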