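import Pool.Agent.Helper88.CG.Goals

/-! # CG-F1: averaging over the classes, auxiliary statements -/

set_option autoImplicit false

open Finset Filter Topology

open scoped Classical

namespace Pool.Agent.Helper87.CG

open Pool.Agent.Helper88.PP (pr Rg om Sf SS uu vv ee LA VV QQ cost)
open Pool.Agent.Helper88.RR (gg ab TB WB nz DB VM)
open Pool.Agent.Helper88.GM (NI XI gB Sr In)
open Pool.Agent.Helper88.CG

/-- the averaging argument -/
theorem avg {Q : ℕ} (hQ : 1 ≤ Q) {r s t p : ℕ → ℝ} {cA CB CP C5 K R M pb η δ : ℝ}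
    (hcA : 0 < cA) (hCB : 0 < CB) (hCP : 0 < CP) (hC5 : 0 < C5) (hK : 1 ≤ K) (hR : 0 < R)
    (hpb : 0 < pb) (hη0 : 0 ≤ η) (hη1 : η ≤ 1 / 6)
    (s0 : ∀ b < Q, 0 ≤ s b) (t0 : ∀ b < Q, 0 ≤ t b)
    (p0 : ∀ b < Q, 0 ≤ p b)
    (h1 : Q * (cA * R) ≤ ∑ b ∈ range Q, r b) (h2 : ∀ b < Q, r b ≤ CB * s b)
    (h3 : ∑ b ∈ range Q, s b ^ 2 ≤ Q * (2 * C5 * R ^ 2))
    (h4 : ∑ b ∈ range Q, t b ≤ Q * (C5 * R * δ)) (h5 : ∑ b ∈ range Q, p b ≤ Q * pb)
    (hδ : 4 * K * CP * C5 * δ ≤ cA) (hRK : 8 * K ≤ cA * R)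
    (hM : 0 ≤ M) (hη : η * (K + M + (1 + 2 * C5 * R ^ 2) / 2) ≤ K) :
    ∃ b < Q, p b ≤ 32 * CB ^ 2 * C5 / cA ^ 2 * pb ∧
      0 < (1 - η) * r b - η * s b - K * (CP / 2) * t b - K * (1 + η) - M * η := by
  by_contra hcon
  push Not at hcon
  have hQ0 : (0 : ℝ) < Q := by exact_mod_cast hQ
  set Λ : ℝ := 32 * CB ^ 2 * C5 / cA ^ 2 with hΛ
  have hΛ0 : 0 < Λ := by positivity
  set τ : ℝ := cA / (8 * CB * C5) with hτ
  have hτ0 : 0 < τ := by positivity
  -- the value of `r` at a bad `b`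
  have hbad : ∀ b < Q, (if p b ≤ Λ * pb then (0 : ℝ) else r b) ≤
      CB * (R / (2 * τ * (Λ * pb)) * p b + τ / (2 * R) * s b ^ 2) := by
    intro b hb
    have hp := p0 b hb
    have hs := s0 b hb
    split_ifs with h
    · positivity
    · push Not at h
      refine (h2 b hb).trans (mul_le_mul_of_nonneg_left ?_ hCB.le)
      have e1 : R / (2 * τ) ≤ R / (2 * τ * (Λ * pb)) * p b := by
        rw [div_mul_eq_mul_div, div_le_div_iff₀ (by positivity) (by positivity)]
        have : 0 < R * (2 * τ) := by positivity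
        nlinarith
      have e2 : s b ≤ R / (2 * τ) + τ / (2 * R) * s b ^ 2 := by
        have e3 : R / (2 * τ) + τ / (2 * R) * s b ^ 2 - s b =
            (τ * s b - R) ^ 2 / (2 * τ * R) := by
          field_simp
          ring
        have e4 : 0 ≤ (τ * s b - R) ^ 2 / (2 * τ * R) := by positivity
        linarith
      linarith
  have hpt : ∀ b ∈ range Q, (1 - η) * (r b - (if p b ≤ Λ * pb then (0 : ℝ) else r b)) ≤
      η * s b + K * (CP / 2) * t b + (K * (1 + η) + M * η) := by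
    intro b hb
    have hb' := mem_range.1 hb
    split_ifs with h
    · have := hcon b hb' h
      linarith
    · have hs := s0 b hb'
      have ht := t0 b hb'
      rw [sub_self, mul_zero]
      positivity
  have hsum := sum_le_sum hpt
  rw [← mul_sum, sum_sub_distrib, sum_add_distrib, sum_add_distrib, ← mul_sum, ← mul_sum,
    sum_const, card_range, nsmul_eq_mul] at hsum
  have hb1 : ∑ b ∈ range Q, (if p b ≤ Λ * pb then (0 : ℝ) else r b) ≤ Q * (cA * R / 4) := by
    calc ∑ b ∈ range Q, (if p b ≤ Λ * pb then (0 : ℝ) else r b)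
        ≤ ∑ b ∈ range Q, CB * (R / (2 * τ * (Λ * pb)) * p b + τ / (2 * R) * s b ^ 2) :=
          sum_le_sum fun b hb => hbad b (mem_range.1 hb)
      _ = CB * (R / (2 * τ * (Λ * pb)) * ∑ b ∈ range Q, p b +
            τ / (2 * R) * ∑ b ∈ range Q, s b ^ 2) := by
          rw [← mul_sum, sum_add_distrib, ← mul_sum, ← mul_sum]
      _ ≤ CB * (R / (2 * τ * (Λ * pb)) * (Q * pb) + τ / (2 * R) * (Q * (2 * C5 * R ^ 2))) := by
          gcongr
      _ = Q * (cA * R / 4) := by
          rw [hτ, hΛ]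
          field_simp
          ring
  have hs1 : ∑ b ∈ range Q, s b ≤ Q * ((1 + 2 * C5 * R ^ 2) / 2) := by
    have : ∑ b ∈ range Q, s b ≤ ∑ b ∈ range Q, (1 / 2 + s b ^ 2 / 2) :=
      sum_le_sum fun b _ => by nlinarith [sq_nonneg (s b - 1)]
    rw [sum_add_distrib, sum_const, card_range, nsmul_eq_mul, ← sum_div] at this
    nlinarith
  have g1 : (1 - η) * (∑ b ∈ range Q, r b -
      ∑ b ∈ range Q, (if p b ≤ Λ * pb then (0 : ℝ) else r b)) ≥
      5 / 6 * (Q * (3 / 4 * (cA * R))) := by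
    have e1 : Q * (3 / 4 * (cA * R)) ≤ ∑ b ∈ range Q, r b -
      ∑ b ∈ range Q, (if p b ≤ Λ * pb then (0 : ℝ) else r b) := by linarith
    have e2 : 0 ≤ Q * (3 / 4 * (cA * R)) := by positivity
    nlinarith
  have g2 : η * ∑ b ∈ range Q, s b ≤ η * (Q * ((1 + 2 * C5 * R ^ 2) / 2)) :=
    mul_le_mul_of_nonneg_left hs1 hη0
  have g3 : K * (CP / 2) * ∑ b ∈ range Q, t b ≤ Q * (cA * R / 8) := by
    have e1 : K * (CP / 2) * ∑ b ∈ range Q, t b ≤ K * (CP / 2) * (Q * (C5 * R * δ)) :=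
      mul_le_mul_of_nonneg_left h4 (by positivity)
    have e2 : K * (CP / 2) * (Q * (C5 * R * δ)) = Q * (R / 8) * (4 * K * CP * C5 * δ) := by ring
    have e3 : Q * (R / 8) * (4 * K * CP * C5 * δ) ≤ Q * (R / 8) * cA :=
      mul_le_mul_of_nonneg_left hδ (by positivity)
    linarith
  have g4 : Q * (5 / 8 * (cA * R)) ≤ Q * (cA * R / 8 + 2 * K) := by
    have e1 : η * (Q * ((1 + 2 * C5 * R ^ 2) / 2)) + Q * (K * (1 + η) + M * η) =
        Q * (K + η * (K + M + (1 + 2 * C5 * R ^ 2) / 2)) := by ring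
    have e2 : Q * (K + η * (K + M + (1 + 2 * C5 * R ^ 2) / 2)) ≤ Q * (K + K) :=
      mul_le_mul_of_nonneg_left (by linarith) hQ0.le
    linarith
  have g5 := le_of_mul_le_mul_left g4 hQ0
  linarith

theorem tw_le_one (x n : ℕ) : tw x n ≤ 1 := by
  unfold tw
  refine max_le zero_le_one ?_
  have : 0 ≤ |Real.log (4 * n / x)| / Real.log 4 := by positivity
  linarith

theorem tw_nonneg (x n : ℕ) : 0 ≤ tw x n := le_max_left _ _

theorem pw_nonneg (x n : ℕ) : 0 ≤ pw x n := by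
  unfold pw
  split_ifs
  · have := tw_nonneg x n
    have h1 : 0 ≤ Real.log (n : ℝ) := Real.log_natCast_nonneg n
    have h2 : 0 ≤ Real.log (x : ℝ) := Real.log_natCast_nonneg x
    positivity
  · exact le_rfl

theorem pw_of_not (x n : ℕ) (h : ¬ n.Prime) : pw x n = 0 := by
  unfold pw
  rw [if_neg h]

theorem pw_le_one (x n : ℕ) (hx : 2 ≤ x) : pw x n ≤ 1 := by
  unfold pw
  split_ifs with hn
  · have hx0 : (0 : ℝ) < Real.log x := Real.log_pos (by exact_mod_cast hx)
    rcases lt_or_ge n x with h | h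
    · have h1 : Real.log (n : ℝ) ≤ Real.log x :=
        Real.log_le_log (by exact_mod_cast hn.pos) (by exact_mod_cast h.le)
      have h2 : Real.log n / Real.log x ≤ 1 := (div_le_one hx0).2 h1
      have h3 : 0 ≤ Real.log n / Real.log x := div_nonneg (Real.log_natCast_nonneg n) hx0.le
      calc tw x n * (Real.log n / Real.log x) ≤ 1 * 1 :=
            mul_le_mul (tw_le_one x n) h2 h3 zero_le_one
        _ = 1 := one_mul 1
    · have h1 : tw x n = 0 := by
        unfold tw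
        have h2 : (4 : ℝ) ≤ 4 * n / x := by
          rw [le_div_iff₀ (by exact_mod_cast (by omega : 0 < x))]
          have : (x : ℝ) ≤ n := by exact_mod_cast h
          linarith
        have h3 : Real.log 4 ≤ Real.log (4 * n / x) := Real.log_le_log (by norm_num) h2
        have h4 : 0 < Real.log (4 : ℝ) := Real.log_pos (by norm_num)
        have h5 : 1 ≤ |Real.log (4 * n / x)| / Real.log 4 := by
          rw [le_div_iff₀ h4, one_mul]
          exact h3.trans (le_abs_self _)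
        exact max_eq_left (by linarith)
      rw [h1, zero_mul]
      exact zero_le_one
  · exact zero_le_one

/-- partition into classes -/
theorem sum_classes (u v Q : ℕ) (hQ : 1 ≤ Q) (f : ℕ → ℝ) :
    ∑ b ∈ range Q, ∑ n ∈ NI u v Q b, f n = ∑ n ∈ Ioc u v, f n := by
  unfold NI
  exact sum_fiberwise_of_maps_to (fun n _ => mem_range.2 (Nat.mod_lt n hQ)) f

/-- a prime `n + j` is prime to `Q` -/
theorem coprime_of_prime {x b n j : ℕ} (hx : Real.log x / 20 ≤ (x / 32 : ℕ))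
    (hn : n ∈ NI (x / 32) x (QQ x) b) (hp : (n + j).Prime) : Nat.Coprime (b + j) (QQ x) := by
  unfold NI at hn
  rw [mem_filter, mem_Ioc] at hn
  by_contra hc
  obtain ⟨p, hp1, hp2, hp3⟩ := Nat.Prime.not_coprime_iff_dvd.1 hc
  have hple : p ≤ ⌊Real.log x / 20⌋₊ := by
    unfold QQ at hp3
    exact hp1.dvd_primorial_iff.1 hp3
  have hpx : p ≤ x / 32 := by
    refine hple.trans ?_
    exact Nat.floor_le_of_le hx
  have hmod : n ≡ b [MOD p] := by
    have h1 : n ≡ b [MOD QQ x] := by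
      show n % QQ x = b % QQ x
      rw [← hn.2, Nat.mod_mod]
    exact h1.of_dvd hp3
  have hdvd : p ∣ n + j := by
    have h2 : n + j ≡ b + j [MOD p] := Nat.ModEq.add_right j hmod
    exact (h2.dvd_iff dvd_rfl).2 hp2
  rcases (Nat.dvd_prime hp).1 hdvd with h | h
  · exact hp1.one_lt.ne' h
  · omega

/-- no block contributes more than `1` -/
theorem block_le_one (N : ℕ) {K : ℝ} (hK : 2 ≤ K) :
    (N : ℝ) - K * ((N : ℝ) * ((N : ℝ) - 1) / 2) ≤ 1 := by
  rcases Nat.lt_or_ge N 2 with h | h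
  · interval_cases N
    · norm_num
    · norm_num
  · have h1 : (2 : ℝ) ≤ N := by exact_mod_cast h
    have h2 : 0 ≤ (N : ℝ) * ((N : ℝ) - 1) / 2 := by
      have : 0 ≤ (N : ℝ) - 1 := by linarith
      positivity
    nlinarith

end Pool.Agent.Helper87.CG
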