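import Pool.Agent.Helper87.CG.F1a

/-! # CG-F1: positivity for a given class -/

set_option autoImplicit false

open Finset Filter Topology

open scoped Classical

namespace Pool.Agent.Helper87.CG

open Pool.Agent.Helper88.CG

/-- the points of a block which are prime to `Q` -/
noncomputable def cb (Q U l b a : ℕ) : Finset ℕ :=
  (blk U l a).filter (fun j => Nat.Coprime (b + j) Q)

theorem nb_eq (n U l a : ℕ) :
    (nb n U l a : ℝ) = ∑ j ∈ blk U l a, if (n + j).Prime then (1 : ℝ) else 0 := by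
  unfold nb
  rw [card_filter]
  push_cast
  rfl

theorem nb_mul (n U l a : ℕ) :
    (nb n U l a : ℝ) * ((nb n U l a : ℝ) - 1) =
      ∑ q ∈ (blk U l a).offDiag, if (n + q.1).Prime ∧ (n + q.2).Prime then (1 : ℝ) else 0 := by
  have h1 : ((((blk U l a).filter (fun j => (n + j).Prime)).offDiag.card : ℕ) : ℝ) =
      (nb n U l a : ℝ) * ((nb n U l a : ℝ) - 1) := by
    rw [offDiag_card, Nat.cast_sub (Nat.le_mul_self _)]
    unfold nb
    push_cast
    ring
  rw [← h1]
  have h2 : ((blk U l a).filter (fun j => (n + j).Prime)).offDiag =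
      (blk U l a).offDiag.filter (fun q => (n + q.1).Prime ∧ (n + q.2).Prime) := by
    ext q
    simp only [mem_offDiag, mem_filter]
    tauto
  rw [h2, card_filter]
  push_cast
  rfl

/-- positivity for a given class -/
theorem key {N : Finset ℕ} {W2 pwf : ℕ → ℝ} {M U l Q b : ℕ} {P : Finset ℕ} {X D o η CP K : ℝ}
    (hW : ∀ n ∈ N, 0 ≤ W2 n) (hpw1 : ∀ m, pwf m ≤ 1) (hpwn : ∀ m, ¬ m.Prime → pwf m = 0)
    (hcop : ∀ n ∈ N, ∀ j, (n + j).Prime → Nat.Coprime (b + j) Q)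
    (hX : 0 < X) (hD : 0 < D) (hCP : 0 ≤ CP) (hK : 0 ≤ K)
    (hLB : ∀ a < M, ∀ j ∈ blk U l a, D * ((1 - η) * (∑ n ∈ N, pwf (n + j)) - η * (X * o)) ≤
      ∑ n ∈ N, pwf (n + j) * W2 n)
    (hPB : ∀ a < M, ∀ j ∈ blk U l a, ∀ j' ∈ blk U l a, j ≠ j' →
      ∑ n ∈ N.filter (fun n => (n + j).Prime ∧ (n + j').Prime), W2 n ≤ CP * (X * D) * o ^ 2)
    (hKQ : ∑ n ∈ N, W2 n * ((P.filter (fun h => (n + h).Prime)).card : ℝ) ≤ η * (X * D))
    (hS : ∑ n ∈ N, W2 n ≤ (1 + η) * (X * D))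
    (hpos : 0 < (1 - η) * ((∑ a ∈ range M, ∑ j ∈ blk U l a, ∑ n ∈ N, pwf (n + j)) / X)
      - η * (o * ∑ a ∈ range M, ((cb Q U l b a).card : ℝ))
      - K * (CP / 2) * (o ^ 2 * ∑ a ∈ range M, ((cb Q U l b a).card : ℝ) ^ 2)
      - K * (1 + η) - M * η) :
    ∃ n ∈ N, 0 < ∑ a ∈ range M, ((nb n U l a : ℝ) -
        K * ((nb n U l a : ℝ) * ((nb n U l a : ℝ) - 1) / 2)) - K -
      M * ((P.filter (fun h => (n + h).Prime)).card : ℝ) := by
  by_contra hcon
  push Not at hcon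
  -- first term
  have hA1 : D * ((1 - η) * (∑ a ∈ range M, ∑ j ∈ blk U l a, ∑ n ∈ N, pwf (n + j))
      - η * (X * o) * ∑ a ∈ range M, ((cb Q U l b a).card : ℝ)) ≤
      ∑ n ∈ N, W2 n * ∑ a ∈ range M, (nb n U l a : ℝ) := by
    have e1 : ∑ n ∈ N, W2 n * ∑ a ∈ range M, (nb n U l a : ℝ) =
        ∑ a ∈ range M, ∑ j ∈ blk U l a, ∑ n ∈ N, W2 n * (if (n + j).Prime then (1 : ℝ) else 0) := by
      simp only [nb_eq, mul_sum]
      rw [sum_comm]
      refine sum_congr rfl fun a _ => ?_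
      rw [sum_comm]
    rw [e1]
    have e2 : ∀ a ∈ range M, ∀ j ∈ blk U l a,
        D * ((1 - η) * (∑ n ∈ N, pwf (n + j)) -
          η * (X * o) * (if Nat.Coprime (b + j) Q then 1 else 0)) ≤
        ∑ n ∈ N, W2 n * (if (n + j).Prime then (1 : ℝ) else 0) := by
      intro a ha j hj
      by_cases hc : Nat.Coprime (b + j) Q
      · rw [if_pos hc, mul_one]
        refine (hLB a (mem_range.1 ha) j hj).trans (sum_le_sum fun n hn => ?_)
        have hw := hW n hn
        split_ifs with hp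
        · have := hpw1 (n + j)
          nlinarith
        · rw [hpwn _ hp, zero_mul, mul_zero]
      · rw [if_neg hc, mul_zero, sub_zero]
        have h0 : ∀ n ∈ N, ¬ (n + j).Prime := fun n hn hp => hc (hcop n hn j hp)
        rw [sum_eq_zero fun n hn => hpwn _ (h0 n hn), mul_zero, mul_zero]
        refine (sum_eq_zero fun n hn => ?_).ge
        rw [if_neg (h0 n hn), mul_zero]
    have e3 := sum_le_sum fun a ha => sum_le_sum (e2 a ha)
    refine le_trans (le_of_eq ?_) e3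
    simp only [← mul_sum, sum_sub_distrib]
    congr 3
    refine sum_congr rfl fun a _ => ?_
    unfold cb
    rw [card_filter]
    push_cast
    rfl
  -- pairs
  have hA2 : ∑ n ∈ N, W2 n * ∑ a ∈ range M, ((nb n U l a : ℝ) * ((nb n U l a : ℝ) - 1)) ≤
      CP * (X * D) * o ^ 2 * ∑ a ∈ range M, ((cb Q U l b a).card : ℝ) ^ 2 := by
    have e1 : ∑ n ∈ N, W2 n * ∑ a ∈ range M, ((nb n U l a : ℝ) * ((nb n U l a : ℝ) - 1)) =
        ∑ a ∈ range M, ∑ q ∈ (blk U l a).offDiag,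
          ∑ n ∈ N.filter (fun n => (n + q.1).Prime ∧ (n + q.2).Prime), W2 n := by
      simp only [nb_mul, mul_sum]
      rw [sum_comm]
      refine sum_congr rfl fun a _ => ?_
      rw [sum_comm]
      refine sum_congr rfl fun q _ => ?_
      rw [sum_filter]
      refine sum_congr rfl fun n _ => ?_
      split_ifs
      · rw [mul_one]
      · rw [mul_zero]
    rw [e1, mul_sum]
    refine sum_le_sum fun a ha => ?_
    have e2 : ∑ q ∈ (blk U l a).offDiag,
        ∑ n ∈ N.filter (fun n => (n + q.1).Prime ∧ (n + q.2).Prime), W2 n =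
        ∑ q ∈ (cb Q U l b a).offDiag,
        ∑ n ∈ N.filter (fun n => (n + q.1).Prime ∧ (n + q.2).Prime), W2 n := by
      symm
      refine sum_subset ?_ ?_
      · exact offDiag_mono (filter_subset _ _)
      · intro q hq hq'
        rw [mem_offDiag] at hq
        refine sum_eq_zero fun n hn => ?_
        rw [mem_filter] at hn
        exfalso
        apply hq'
        rw [mem_offDiag]
        exact ⟨mem_filter.2 ⟨hq.1, hcop n hn.1 _ hn.2.1⟩,
          mem_filter.2 ⟨hq.2.1, hcop n hn.1 _ hn.2.2⟩, hq.2.2⟩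
    rw [e2]
    have e3 : ∑ q ∈ (cb Q U l b a).offDiag,
        ∑ n ∈ N.filter (fun n => (n + q.1).Prime ∧ (n + q.2).Prime), W2 n ≤
        ∑ _q ∈ (cb Q U l b a).offDiag, CP * (X * D) * o ^ 2 := by
      refine sum_le_sum fun q hq => ?_
      rw [mem_offDiag] at hq
      exact hPB a (mem_range.1 ha) _ (mem_filter.1 hq.1).1 _ (mem_filter.1 hq.2.1).1 hq.2.2
    refine e3.trans ?_
    rw [sum_const, nsmul_eq_mul, mul_comm]
    refine mul_le_mul_of_nonneg_left ?_ (by positivity)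
    have e4 : (cb Q U l b a).offDiag.card ≤ (cb Q U l b a).card ^ 2 := by
      rw [offDiag_card, sq]
      exact Nat.sub_le _ _
    exact_mod_cast e4
  -- the sum of everything
  have hsum : ∑ n ∈ N, W2 n * (∑ a ∈ range M, ((nb n U l a : ℝ) -
        K * ((nb n U l a : ℝ) * ((nb n U l a : ℝ) - 1) / 2)) - K -
      M * ((P.filter (fun h => (n + h).Prime)).card : ℝ)) ≤ 0 :=
    sum_nonpos fun n hn => mul_nonpos_of_nonneg_of_nonpos (hW n hn) (hcon n hn)
  have hexp : ∑ n ∈ N, W2 n * (∑ a ∈ range M, ((nb n U l a : ℝ) -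
        K * ((nb n U l a : ℝ) * ((nb n U l a : ℝ) - 1) / 2)) - K -
      M * ((P.filter (fun h => (n + h).Prime)).card : ℝ)) =
      ∑ n ∈ N, W2 n * ∑ a ∈ range M, (nb n U l a : ℝ)
      - K / 2 * ∑ n ∈ N, W2 n * ∑ a ∈ range M, ((nb n U l a : ℝ) * ((nb n U l a : ℝ) - 1))
      - K * ∑ n ∈ N, W2 n
      - M * ∑ n ∈ N, W2 n * ((P.filter (fun h => (n + h).Prime)).card : ℝ) := by
    rw [mul_sum, mul_sum, mul_sum, ← sum_sub_distrib, ← sum_sub_distrib, ← sum_sub_distrib]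
    refine sum_congr rfl fun n _ => ?_
    rw [sum_sub_distrib, ← mul_sum, ← sum_div]
    ring
  rw [hexp] at hsum
  have hXD : 0 < X * D := mul_pos hX hD
  have hfin : (X * D) * ((1 - η) * ((∑ a ∈ range M, ∑ j ∈ blk U l a, ∑ n ∈ N, pwf (n + j)) / X)
      - η * (o * ∑ a ∈ range M, ((cb Q U l b a).card : ℝ))
      - K * (CP / 2) * (o ^ 2 * ∑ a ∈ range M, ((cb Q U l b a).card : ℝ) ^ 2)
      - K * (1 + η) - M * η) =
      D * ((1 - η) * (∑ a ∈ range M, ∑ j ∈ blk U l a, ∑ n ∈ N, pwf (n + j))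
      - η * (X * o) * ∑ a ∈ range M, ((cb Q U l b a).card : ℝ))
      - K / 2 * (CP * (X * D) * o ^ 2 * ∑ a ∈ range M, ((cb Q U l b a).card : ℝ) ^ 2)
      - K * ((1 + η) * (X * D)) - M * (η * (X * D)) := by
    field_simp
  have hpos' := mul_pos hXD hpos
  rw [hfin] at hpos'
  have hM : (0 : ℝ) ≤ M := Nat.cast_nonneg M
  have k1 := mul_le_mul_of_nonneg_left hA2 (by positivity : 0 ≤ K / 2)
  have k2 := mul_le_mul_of_nonneg_left hS hK
  have k3 := mul_le_mul_of_nonneg_left hKQ hM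
  linarith

end Pool.Agent.Helper87.CG
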