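import Pool.Agent.Helper87.CG.F1b
import Pool.Agent.Helper37.PP.HM

/-! # CG-F1: from the bracket to the window; averages over the classes -/

set_option autoImplicit false

open Finset Filter Topology

open scoped Classical

namespace Pool.Agent.Helper87.CG

open Pool.Agent.Helper88.PP (pr Rg om Sf SS uu vv ee LA VV QQ cost)
open Pool.Agent.Helper88.GM (NI XI gB Sr In)
open Pool.Agent.Helper88.CG

/-- the points outside the blocks which are prime to `Q` -/
noncomputable def Pb (Q M U l b : ℕ) : Finset ℕ :=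
  (Icc 1 (M * (U + l))).filter (fun h => (∀ a < M, h ∉ blk U l a) ∧ Nat.Coprime (b + h) Q)

theorem Pb_sub (Q M U l b : ℕ) : Pb Q M U l b ⊆ Icc 1 (M * (U + l)) := filter_subset _ _

theorem blk_sub {M U l a : ℕ} (ha : a < M) {j : ℕ} (hj : j ∈ blk U l a) :
    j ∈ Icc 1 (M * (U + l)) := by
  unfold blk at hj
  rw [mem_Ioc] at hj
  rw [mem_Icc]
  refine ⟨by omega, ?_⟩
  have h1 : (a + 1) * (U + l) ≤ M * (U + l) := Nat.mul_le_mul_right _ ha
  have h2 : (a + 1) * (U + l) = a * (U + l) + U + l := by ring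
  omega

theorem blk_notMem {Q M U l a b : ℕ} (ha : a < M) {j : ℕ} (hj : j ∈ blk U l a) :
    j ∉ Pb Q M U l b := by
  intro h
  exact (mem_filter.1 h).2.1 a ha hj

/-- from a positive bracket to the window -/
theorem window {n M U l Q b k : ℕ} {K : ℝ} (hK : K = (k : ℝ) + 2)
    (hcop : ∀ j, (n + j).Prime → Nat.Coprime (b + j) Q)
    (h : 0 < ∑ a ∈ range M, ((nb n U l a : ℝ) -
        K * ((nb n U l a : ℝ) * ((nb n U l a : ℝ) - 1) / 2)) - K -
      M * (((Pb Q M U l b).filter (fun h => (n + h).Prime)).card : ℝ)) :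
    (∀ h ∈ Icc 1 (M * (U + l)), (∀ a < M, h ∉ blk U l a) → ¬ (n + h).Prime) ∧
    (k : ℝ) + 2 < ∑ a ∈ range M,
      ((nb n U l a : ℝ) - ((k : ℝ) + 2) * ((nb n U l a : ℝ) * ((nb n U l a : ℝ) - 1) / 2)) := by
  have hK2 : 2 ≤ K := by
    rw [hK]
    have : (0 : ℝ) ≤ k := Nat.cast_nonneg k
    linarith
  have hM : (0 : ℝ) ≤ M := Nat.cast_nonneg M
  have hle : ∑ a ∈ range M, ((nb n U l a : ℝ) -
        K * ((nb n U l a : ℝ) * ((nb n U l a : ℝ) - 1) / 2)) ≤ M := by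
    calc _ ≤ ∑ _a ∈ range M, (1 : ℝ) := sum_le_sum fun a _ => block_le_one _ hK2
      _ = M := by rw [sum_const, card_range, nsmul_eq_mul, mul_one]
  constructor
  · intro h' hh hblk hp
    have hmem : h' ∈ (Pb Q M U l b).filter (fun h => (n + h).Prime) :=
      mem_filter.2 ⟨mem_filter.2 ⟨hh, hblk, hcop _ hp⟩, hp⟩
    have h1 : (1 : ℝ) ≤ (((Pb Q M U l b).filter (fun h => (n + h).Prime)).card : ℝ) := by
      exact_mod_cast card_pos.2 ⟨_, hmem⟩
    nlinarith
  · have h0 : 0 ≤ (M : ℝ) * (((Pb Q M U l b).filter (fun h => (n + h).Prime)).card : ℝ) := by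
      positivity
    rw [← hK]
    linarith

/-- the average number of primes in the blocks -/
theorem avg_r {x M U l : ℕ} {c : ℝ} (hQ : 1 ≤ QQ x)
    (h : ∀ j : ℕ, j ≤ M * (U + l) → c ≤ ∑ n ∈ Ioc (x / 32) x, pw x (n + j)) :
    (M : ℝ) * l * c ≤ ∑ b ∈ range (QQ x), ∑ a ∈ range M, ∑ j ∈ blk U l a,
      ∑ n ∈ NI (x / 32) x (QQ x) b, pw x (n + j) := by
  rw [sum_comm]
  have h1 : ∀ a ∈ range M, (l : ℝ) * c ≤ ∑ b ∈ range (QQ x), ∑ j ∈ blk U l a,
      ∑ n ∈ NI (x / 32) x (QQ x) b, pw x (n + j) := by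
    intro a ha
    rw [sum_comm]
    have h2 : ∀ j ∈ blk U l a, c ≤ ∑ b ∈ range (QQ x),
        ∑ n ∈ NI (x / 32) x (QQ x) b, pw x (n + j) := by
      intro j hj
      rw [sum_classes _ _ _ hQ (fun n => pw x (n + j))]
      exact h j (mem_Icc.1 (blk_sub (mem_range.1 ha) hj)).2
    have h3 := card_nsmul_le_sum _ _ _ h2
    rw [nsmul_eq_mul] at h3
    have h4 : (blk U l a).card = l := by
      unfold blk
      rw [Nat.card_Ioc]
      omega
    rwa [h4] at h3
  have h3 := card_nsmul_le_sum _ _ _ h1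
  rw [nsmul_eq_mul, card_range, ← mul_assoc] at h3
  exact h3

/-- the number of primes in the blocks is at most the number of points prime to `Q` -/
theorem r_le {x M U l b : ℕ} {X o CB : ℝ} (hx : 2 ≤ x) (hX : 0 < X)
    (hcop : ∀ n ∈ NI (x / 32) x (QQ x) b, ∀ j, (n + j).Prime → Nat.Coprime (b + j) (QQ x))
    (hBT : ∀ j ∈ Icc 1 (M * (U + l)),
      (((NI (x / 32) x (QQ x) b).filter (fun n => (n + j).Prime)).card : ℝ) ≤ CB * (X * o)) :
    (∑ a ∈ range M, ∑ j ∈ blk U l a, ∑ n ∈ NI (x / 32) x (QQ x) b, pw x (n + j)) / X ≤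
      CB * (o * ∑ a ∈ range M, ((cb (QQ x) U l b a).card : ℝ)) := by
  rw [div_le_iff₀ hX]
  have h1 : ∀ a ∈ range M, ∑ j ∈ blk U l a, ∑ n ∈ NI (x / 32) x (QQ x) b, pw x (n + j) ≤
      ((cb (QQ x) U l b a).card : ℝ) * (CB * (X * o)) := by
    intro a ha
    have h2 : ∑ j ∈ blk U l a, ∑ n ∈ NI (x / 32) x (QQ x) b, pw x (n + j) =
        ∑ j ∈ cb (QQ x) U l b a, ∑ n ∈ NI (x / 32) x (QQ x) b, pw x (n + j) := by
      symm
      refine sum_subset (filter_subset _ _) fun j hj hj' => ?_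
      refine sum_eq_zero fun n hn => pw_of_not _ _ fun hp => hj' ?_
      exact mem_filter.2 ⟨hj, hcop n hn j hp⟩
    rw [h2, ← nsmul_eq_mul, ← sum_const]
    refine sum_le_sum fun j hj => ?_
    refine le_trans ?_ (hBT j (blk_sub (mem_range.1 ha) (mem_filter.1 hj).1))
    rw [card_filter]
    push_cast
    refine sum_le_sum fun n _ => ?_
    split_ifs with hp
    · exact pw_le_one x _ hx
    · exact (pw_of_not _ _ hp).le
  refine (sum_le_sum h1).trans (le_of_eq ?_)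
  rw [← sum_mul]
  ring

/-- the mean number of points prime to `Q` -/
theorem avg_p (Q M U l : ℕ) (hQ : 1 ≤ Q) :
    ∑ b ∈ range Q, ((Pb Q M U l b).card : ℝ) ≤ ((M * (U + l) : ℕ) : ℝ) * Nat.totient Q := by
  have h1 := Pool.Agent.Helper37.PP.hb Q 0 (M * (U + l)) hQ (Nat.zero_le _)
  have h2 : ∑ b ∈ range Q, (Pb Q M U l b).card ≤
      ∑ b ∈ range Q, ((Ioc 0 (M * (U + l))).filter (fun h => Nat.Coprime (b + h) Q)).card := by
    refine sum_le_sum fun b _ => card_le_card fun h hh => ?_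
    unfold Pb at hh
    rw [mem_filter, mem_Icc] at hh
    rw [mem_filter, mem_Ioc]
    exact ⟨⟨by omega, hh.1.2⟩, hh.2.2⟩
  rw [h1, Nat.sub_zero] at h2
  exact_mod_cast h2

end Pool.Agent.Helper87.CG
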