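import Pool.Agent.Helper87.CG.F1c

/-! # CG-F1: sizes of the parameters -/

set_option autoImplicit false

open Finset Filter Topology

open scoped Classical

namespace Pool.Agent.Helper87.CG

theorem log_le_eps {ε : ℝ} (hε : 0 < ε) : ∀ᶠ L : ℝ in atTop, Real.log L ≤ ε * L := by
  have h1 : ∀ᶠ u : ℝ in atTop, ‖Real.log u‖ ≤ ε * ‖id u‖ :=
    (Asymptotics.isLittleO_iff.1 Real.isLittleO_log_id_atTop) hε
  filter_upwards [h1, eventually_ge_atTop (1 : ℝ)] with u hu hu1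
  rw [id, Real.norm_of_nonneg (Real.log_nonneg hu1), Real.norm_of_nonneg (by linarith)] at hu
  exact hu

/-- sizes -/
theorem sizes {c' δ : ℝ} (hc' : 0 < c') (hδ : 0 < δ) {M : ℕ} (hM : 1 ≤ M) :
    ∀ᶠ x : ℕ in atTop, ∃ U l : ℕ, c' * (Real.log x * Real.log (Real.log x)) ≤ U ∧
      (U : ℝ) ≤ 2 * c' * (Real.log x * Real.log (Real.log x)) ∧
      δ * Real.log x ≤ l ∧ (l : ℝ) ≤ 2 * δ * Real.log x ∧ l ≤ U ∧
      Real.log x ≤ ((M * (U + l) : ℕ) : ℝ) ∧ ((M * (U + l) : ℕ) : ℝ) ≤ Real.log x ^ 2 ∧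
      Real.log (Real.log x) ≤ l ∧ Real.log x / 20 ≤ (x / 32 : ℕ) ∧ 64 ≤ x ∧
      0 < Real.log (Real.log x) ∧ 0 < Real.log x := by
  have hM0 : (1 : ℝ) ≤ M := by exact_mod_cast hM
  have hlog : Tendsto (fun x : ℕ => Real.log (x : ℝ)) atTop atTop :=
    Real.tendsto_log_atTop.comp tendsto_natCast_atTop_atTop
  have e1 : ∀ᶠ x : ℕ in atTop, Real.log (Real.log x) ≤ 1 / (4 * M * c') * Real.log x :=
    hlog.eventually (log_le_eps (by positivity))
  have e2 : ∀ᶠ x : ℕ in atTop, Real.log (Real.log x) ≤ δ * Real.log x :=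
    hlog.eventually (log_le_eps hδ)
  have e3 : ∀ᶠ x : ℕ in atTop, (2 * δ + 1) / c' ≤ Real.log (Real.log x) :=
    (Real.tendsto_log_atTop.comp hlog).eventually_ge_atTop _
  have e4 : ∀ᶠ x : ℕ in atTop, 1 / δ + 1 ≤ Real.log x := hlog.eventually_ge_atTop _
  have e5 : ∀ᶠ x : ℕ in atTop, Real.log (x : ℝ) ≤ 1 / 2 * x :=
    tendsto_natCast_atTop_atTop.eventually (log_le_eps (by norm_num))
  filter_upwards [e1, e2, e3, e4, e5, eventually_ge_atTop 160] with x a1 a2 a3 a4 a5 a6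
  set L := Real.log (x : ℝ) with hL
  set LL := Real.log L with hLL
  have hL0 : 1 ≤ L := by
    have : 0 < 1 / δ := by positivity
    linarith
  have hLL0 : 0 < LL := lt_of_lt_of_le (by positivity) a3
  have a3' : 2 * δ + 1 ≤ c' * LL := by
    rw [div_le_iff₀ hc'] at a3
    linarith
  have hb : 1 ≤ c' * (L * LL) := by
    have h1 : c' * LL * 1 ≤ c' * LL * L := mul_le_mul_of_nonneg_left hL0 (by positivity)
    nlinarith
  have hd : 1 ≤ δ * L := by
    have h1 : 1 / δ ≤ L := by linarith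
    rw [div_le_iff₀ hδ] at h1
    linarith
  have hU1 : c' * (L * LL) ≤ (⌈c' * (L * LL)⌉₊ : ℝ) := Nat.le_ceil _
  have hU2 : (⌈c' * (L * LL)⌉₊ : ℝ) ≤ 2 * c' * (L * LL) := by
    have := Nat.ceil_lt_add_one (by positivity : 0 ≤ c' * (L * LL))
    linarith
  have hl1 : δ * L ≤ (⌈δ * L⌉₊ : ℝ) := Nat.le_ceil _
  have hl2 : (⌈δ * L⌉₊ : ℝ) ≤ 2 * δ * L := by
    have := Nat.ceil_lt_add_one (by positivity : 0 ≤ δ * L)
    linarith
  have h2δ : 2 * δ * L ≤ c' * (L * LL) := by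
    have : 2 * δ * L ≤ (c' * LL) * L := mul_le_mul_of_nonneg_right (by linarith) (by linarith)
    linarith
  have hlU : (⌈δ * L⌉₊ : ℝ) ≤ (⌈c' * (L * LL)⌉₊ : ℝ) := by linarith
  refine ⟨⌈c' * (L * LL)⌉₊, ⌈δ * L⌉₊, hU1, hU2, hl1, hl2, by exact_mod_cast hlU, ?_, ?_, ?_, ?_,
    by omega, hLL0, by linarith⟩
  · push_cast
    have h1 : L ≤ c' * (L * LL) := by nlinarith
    have h2 : (0 : ℝ) ≤ (⌈δ * L⌉₊ : ℝ) := Nat.cast_nonneg _
    nlinarith
  · push_cast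
    have h1 : (M : ℝ) * ((⌈c' * (L * LL)⌉₊ : ℝ) + (⌈δ * L⌉₊ : ℝ)) ≤
        M * (2 * (2 * c' * (L * LL))) := mul_le_mul_of_nonneg_left (by linarith) (by linarith)
    have h2 : (M : ℝ) * (2 * (2 * c' * (L * LL))) = (4 * M * c' * LL) * L := by ring
    have h3 : 4 * M * c' * LL ≤ L := by
      have h4 : 4 * M * c' * LL ≤ 4 * M * c' * (1 / (4 * M * c') * L) :=
        mul_le_mul_of_nonneg_left a1 (by positivity)
      have h5 : 4 * M * c' * (1 / (4 * M * c') * L) = L := by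
        field_simp
      linarith
    have h6 : (4 * M * c' * LL) * L ≤ L * L := mul_le_mul_of_nonneg_right h3 (by linarith)
    rw [sq]
    linarith
  · linarith
  · have h1 : (x : ℝ) / 32 - 1 ≤ ((x / 32 : ℕ) : ℝ) := by
      have h2 : x < 32 * (x / 32 + 1) := by omega
      have h3 : (x : ℝ) < 32 * (((x / 32 : ℕ) : ℝ) + 1) := by exact_mod_cast h2
      linarith
    have h2 : (160 : ℝ) ≤ x := by exact_mod_cast a6
    linarith

/-- sizes in terms of `E` -/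
theorem sizesE {cS η cK : ℝ} (hcS : 0 < cS) (hη : 0 < η) (hcK : 0 < cK) :
    ∃ E0 : ℕ, ∀ E : ℕ, E0 ≤ E → Real.exp (-(cS * E)) ≤ η ∧ 2 * cK * Real.log E ≤ E ∧
      0 ≤ Real.log E := by
  have e1 : ∀ᶠ E : ℝ in atTop, Real.exp (-(cS * E)) ≤ η := by
    have h1 : Tendsto (fun E : ℝ => Real.exp (-(cS * E))) atTop (𝓝 0) :=
      Real.tendsto_exp_neg_atTop_nhds_zero.comp (tendsto_id.const_mul_atTop hcS)
    filter_upwards [h1.eventually (gt_mem_nhds hη)] with E hE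
    exact hE.le
  have e2 : ∀ᶠ E : ℝ in atTop, Real.log E ≤ 1 / (2 * cK) * E := log_le_eps (by positivity)
  obtain ⟨E0, h⟩ := eventually_atTop.1 (tendsto_natCast_atTop_atTop.eventually
    (e1.and (e2.and (eventually_ge_atTop (1 : ℝ)))))
  refine ⟨E0, fun E hE => ?_⟩
  obtain ⟨a1, a2, a3⟩ := h E hE
  refine ⟨a1, ?_, Real.log_nonneg a3⟩
  have h4 : 2 * cK * Real.log E ≤ 2 * cK * (1 / (2 * cK) * E) :=
    mul_le_mul_of_nonneg_left a2 (by positivity)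
  have h5 : 2 * cK * (1 / (2 * cK) * E) = E := by
    field_simp
  linarith

end Pool.Agent.Helper87.CG
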